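import Pool.Agent.helper98.RPB.Defs

/-!
# RQ project, module FA: failure of equidistribution for gates that are not mixing

If the doubly stochastic matrix `|W a b| ^ 2` is not primitive, the iterated images of some letter
are proper sets of letters. The words with one change from one such set to the next span a subspace
which is invariant under the baker map for all phases.
-/

set_option autoImplicit false

open scoped BigOperators ComplexConjugate

namespace Pool.Agent.helper72.RQ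

open Pool.Agent.helper98.RPB

/-- The letters reached in one step from the set `A`. -/
def FA_N {D : ℕ} (W : Matrix (Fin D) (Fin D) ℂ) (A : Set (Fin D)) : Set (Fin D) :=
  {a | ∃ b ∈ A, W a b ≠ 0}

theorem FA_row_ne {D : ℕ} {W : Matrix (Fin D) (Fin D) ℂ}
    (hW : W ∈ Matrix.unitaryGroup (Fin D) ℂ) (a : Fin D) : ∃ b, W a b ≠ 0 := by
  by_contra h
  push Not at h
  have h1 := congrFun (congrFun (Matrix.mem_unitaryGroup_iff.1 hW) a) a
  rw [Matrix.mul_apply] at h1
  simp [h] at h1

theorem FA_col_ne {D : ℕ} {W : Matrix (Fin D) (Fin D) ℂ}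
    (hW : W ∈ Matrix.unitaryGroup (Fin D) ℂ) (b : Fin D) : ∃ a, W a b ≠ 0 := by
  by_contra h
  push Not at h
  have h1 := congrFun (congrFun (Matrix.mem_unitaryGroup_iff'.1 hW) b) b
  rw [Matrix.mul_apply] at h1
  simp [h] at h1

theorem FA_N_univ {D : ℕ} {W : Matrix (Fin D) (Fin D) ℂ}
    (hW : W ∈ Matrix.unitaryGroup (Fin D) ℂ) : FA_N W Set.univ = Set.univ := by
  ext a
  obtain ⟨b, hb⟩ := FA_row_ne hW a
  exact ⟨fun _ => trivial, fun _ => ⟨b, trivial, hb⟩⟩

theorem FA_iter_nonempty {D : ℕ} {W : Matrix (Fin D) (Fin D) ℂ}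
    (hW : W ∈ Matrix.unitaryGroup (Fin D) ℂ) (a : Fin D) (q : ℕ) :
    ((FA_N W)^[q] {a}).Nonempty := by
  induction q with
  | zero => exact ⟨a, rfl⟩
  | succ q ih =>
    rw [Function.iterate_succ_apply']
    obtain ⟨b, hb⟩ := ih
    obtain ⟨c, hc⟩ := FA_col_ne hW b
    exact ⟨c, b, hb, hc⟩

theorem FA_pos {D : ℕ} (W : Matrix (Fin D) (Fin D) ℂ) (a : Fin D) (q : ℕ) :
    ∀ b ∈ (FA_N W)^[q] {a},
      0 < ((Matrix.of fun a b => ‖W a b‖ ^ 2 : Matrix (Fin D) (Fin D) ℝ) ^ q) b a := by
  have hnn : ∀ (q : ℕ) (b c : Fin D),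
      0 ≤ ((Matrix.of fun a b => ‖W a b‖ ^ 2 : Matrix (Fin D) (Fin D) ℝ) ^ q) b c := by
    intro q
    induction q with
    | zero =>
      intro b c
      rw [pow_zero, Matrix.one_apply]
      split_ifs <;> norm_num
    | succ q ih =>
      intro b c
      rw [pow_succ', Matrix.mul_apply]
      refine Finset.sum_nonneg fun d _ => mul_nonneg ?_ (ih d c)
      rw [Matrix.of_apply]
      positivity
  induction q with
  | zero =>
    intro b hb
    have : b = a := hb
    rw [this]
    simp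
  | succ q ih =>
    intro b hb
    rw [Function.iterate_succ_apply'] at hb
    obtain ⟨c, hc, hbc⟩ := hb
    rw [pow_succ', Matrix.mul_apply]
    refine Finset.sum_pos' (fun d _ => mul_nonneg ?_ (hnn q d a))
      ⟨c, Finset.mem_univ c, mul_pos ?_ (ih c hc)⟩
    · rw [Matrix.of_apply]; positivity
    · rw [Matrix.of_apply]
      have := norm_pos_iff.2 hbc
      positivity

theorem FA_exists {D : ℕ} {W : Matrix (Fin D) (Fin D) ℂ}
    (hW : W ∈ Matrix.unitaryGroup (Fin D) ℂ) (h : ¬ IsMixing W) :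
    ∃ a, ∀ q, (FA_N W)^[q] {a} ≠ Set.univ := by
  by_contra hcon
  push Not at hcon
  choose q hq using hcon
  apply h
  refine ⟨∑ a, q a, fun b a => FA_pos W a _ b ?_⟩
  obtain ⟨r, hr⟩ : ∃ r, ∑ a, q a = r + q a :=
    Nat.exists_eq_add_of_le' (Finset.single_le_sum (fun _ _ => Nat.zero_le _) (Finset.mem_univ a))
  rw [hr, Function.iterate_add_apply, hq a, Function.iterate_fixed (FA_N_univ hW)]
  trivial

/-- Words whose letters lie in `A i` up to some position and in `A (i + 1)` afterwards. -/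
def FA_S {D : ℕ} (A : ℕ → Set (Fin D)) (n : ℕ) : Set (Word D n) :=
  {x | ∃ i r : ℕ, r < n ∧ (∀ j : Fin n, (j : ℕ) + r < n → x j ∈ A i) ∧
    ∀ j : Fin n, n ≤ (j : ℕ) + r → x j ∈ A (i + 1)}

theorem FA_closed {D k : ℕ} (W : Matrix (Fin D) (Fin D) ℂ) (A : ℕ → Set (Fin D))
    (hA : ∀ i, A (i + 1) = FA_N W (A i)) (x : Word D (k + 1)) (y : Fin D)
    (hy : W (x (Fin.last k)) y ≠ 0) (hz : (Fin.cons y (Fin.init x) : Word D (k + 1)) ∈ FA_S A (k + 1)) :
    x ∈ FA_S A (k + 1) := by
  obtain ⟨i, r, hr, h1, h2⟩ := hz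
  have hy0 : y ∈ A i := by
    have := h1 0 (by simpa using hr)
    simpa using this
  have hlast : x (Fin.last k) ∈ A (i + 1) := by
    rw [hA]
    exact ⟨y, hy0, hy⟩
  have hs1 : ∀ j : Fin k, (j : ℕ) + 1 + r < k + 1 → x j.castSucc ∈ A i := by
    intro j hj
    have := h1 j.succ (by simpa using hj)
    simpa [Fin.init] using this
  have hs2 : ∀ j : Fin k, k + 1 ≤ (j : ℕ) + 1 + r → x j.castSucc ∈ A (i + 1) := by
    intro j hj
    have := h2 j.succ (by simpa using hj)
    simpa [Fin.init] using this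
  rcases Nat.lt_or_ge (r + 1) (k + 1) with hlt | hge
  · refine ⟨i, r + 1, hlt, ?_, ?_⟩
    · intro j hj
      induction j using Fin.lastCases with
      | last => simp at hj
      | cast j => exact hs1 j (by simp at hj; omega)
    · intro j hj
      induction j using Fin.lastCases with
      | last => exact hlast
      | cast j => exact hs2 j (by simp at hj; omega)
  · refine ⟨i + 1, 0, by omega, ?_, ?_⟩
    · intro j _
      induction j using Fin.lastCases with
      | last => exact hlast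
      | cast j => exact hs2 j (by omega)
    · intro j hj
      have := j.2
      omega

/-- The baker map as a linear map. -/
noncomputable def FA_L {D k : ℕ} (W : Matrix (Fin D) (Fin D) ℂ) (θ : Word D (k + 1) → ℝ) :
    (Word D (k + 1) → ℂ) →ₗ[ℂ] (Word D (k + 1) → ℂ) where
  toFun := bakerMap W θ
  map_add' ψ φ := by
    funext x
    simp only [bakerMap, Pi.add_apply, mul_add, Finset.sum_add_distrib]
  map_smul' c ψ := by
    funext x
    simp only [bakerMap, Pi.smul_apply, smul_eq_mul, RingHom.id_apply, Finset.mul_sum]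
    exact Finset.sum_congr rfl fun y _ => by ring

/-- The functions supported in `S`. -/
def FA_V {X : Type} (S : Set X) : Submodule ℂ (X → ℂ) where
  carrier := {ψ | ∀ x, x ∉ S → ψ x = 0}
  add_mem' := fun {ψ φ} hψ hφ x hx => by
    rw [Pi.add_apply, hψ x hx, hφ x hx, add_zero]
  zero_mem' := fun x _ => rfl
  smul_mem' := fun c ψ hψ x hx => by
    rw [Pi.smul_apply, hψ x hx, smul_zero]

theorem FA_eigen {D k : ℕ} (W : Matrix (Fin D) (Fin D) ℂ) (A : ℕ → Set (Fin D))
    (hA : ∀ i, A (i + 1) = FA_N W (A i)) (h0 : (A 0).Nonempty) (θ : Word D (k + 1) → ℝ) :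
    ∃ ψ : Word D (k + 1) → ℂ, IsUnitEigenvector W θ ψ ∧ ∀ x, x ∉ FA_S A (k + 1) → ψ x = 0 := by
  classical
  set S := FA_S A (k + 1) with hS
  have hmap : ∀ ψ ∈ FA_V S, FA_L W θ ψ ∈ FA_V S := by
    intro ψ hψ x hx
    change bakerMap W θ ψ x = 0
    unfold bakerMap
    rw [Finset.sum_eq_zero, mul_zero]
    intro y _
    by_cases hy : W (x (Fin.last k)) y = 0
    · rw [hy, zero_mul]
    · rw [hψ _ (fun hz => hx (FA_closed W A hA x y hy hz)), mul_zero]
  obtain ⟨a, ha⟩ := h0
  have hconst : (fun _ => a : Word D (k + 1)) ∈ S := by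
    refine ⟨0, 0, by omega, fun j _ => ha, fun j hj => ?_⟩
    have := j.2
    omega
  have : Nontrivial (FA_V S) := by
    refine ⟨⟨⟨Pi.single (fun _ => a : Word D (k + 1)) 1, ?_⟩, 0, ?_⟩⟩
    · intro x hx
      rw [Pi.single_apply, if_neg]
      rintro rfl
      exact hx hconst
    · intro h
      have := congrArg (fun v : FA_V S => (v : Word D (k + 1) → ℂ) (fun _ => a)) h
      simp at this
  obtain ⟨μ, hμ⟩ := Module.End.exists_eigenvalue
    ((FA_L W θ).restrict hmap : Module.End ℂ (FA_V S))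
  obtain ⟨v, hv⟩ := hμ.exists_hasEigenvector
  have hv1 : bakerMap W θ (v : Word D (k + 1) → ℂ) = μ • (v : Word D (k + 1) → ℂ) := by
    exact congrArg (fun v : FA_V S => (v : Word D (k + 1) → ℂ)) hv.apply_eq_smul
  have hv0 : (v : Word D (k + 1) → ℂ) ≠ 0 := by
    intro h
    exact hv.2 (Subtype.ext h)
  set s : ℝ := ∑ x, ‖(v : Word D (k + 1) → ℂ) x‖ ^ 2 with hs
  have hspos : 0 < s := by
    obtain ⟨x, hx⟩ := Function.ne_iff.1 hv0
    refine Finset.sum_pos' (fun _ _ => by positivity) ⟨x, Finset.mem_univ x, ?_⟩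
    have := norm_pos_iff.2 hx
    positivity
  refine ⟨((Real.sqrt s : ℂ)⁻¹) • (v : Word D (k + 1) → ℂ), ⟨?_, μ, ?_⟩, ?_⟩
  · have : ∀ x, ‖(((Real.sqrt s : ℂ)⁻¹) • (v : Word D (k + 1) → ℂ)) x‖ ^ 2 =
        s⁻¹ * ‖(v : Word D (k + 1) → ℂ) x‖ ^ 2 := by
      intro x
      rw [Pi.smul_apply, norm_smul, mul_pow, norm_inv, Complex.norm_real,
        Real.norm_of_nonneg (Real.sqrt_nonneg s), inv_pow, Real.sq_sqrt hspos.le]
    rw [Finset.sum_congr rfl fun x _ => this x, ← Finset.mul_sum, ← hs,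
      inv_mul_cancel₀ hspos.ne']
  · have h2 := (FA_L W θ).map_smul ((Real.sqrt s : ℂ)⁻¹) (v : Word D (k + 1) → ℂ)
    change bakerMap W θ _ = _ at h2
    rw [h2]
    change (Real.sqrt s : ℂ)⁻¹ • bakerMap W θ (v : Word D (k + 1) → ℂ) = _
    rw [hv1]
    funext x
    simp only [Pi.smul_apply, smul_eq_mul]
    ring
  · intro x hx
    rw [Pi.smul_apply, v.2 x hx, smul_zero]

open Classical in
/-- Words of length `l` with all letters in one of the sets `A i`. -/
noncomputable def FA_B {D : ℕ} (A : ℕ → Set (Fin D)) (l : ℕ) : Finset (Word D l) :=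
  Finset.univ.filter fun w => ∃ i, ∀ j, w j ∈ A i

theorem FA_card_B {D : ℕ} (A : ℕ → Set (Fin D)) (hA : ∀ i, A i ≠ Set.univ) (l : ℕ) :
    (FA_B A l).card ≤ 2 ^ D * (D - 1) ^ l := by
  classical
  have hsub : FA_B A l ⊆ (Finset.univ.filter fun T : Finset (Fin D) => T ≠ Finset.univ).biUnion
      fun T => Fintype.piFinset fun _ : Fin l => T := by
    intro w hw
    obtain ⟨i, hi⟩ := (Finset.mem_filter.1 hw).2
    refine Finset.mem_biUnion.2 ⟨Finset.univ.filter fun a => a ∈ A i, ?_, ?_⟩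
    · refine Finset.mem_filter.2 ⟨Finset.mem_univ _, fun h => hA i ?_⟩
      ext a
      have : a ∈ Finset.univ.filter fun a => a ∈ A i := by
        rw [h]
        exact Finset.mem_univ a
      exact ⟨fun _ => trivial, fun _ => (Finset.mem_filter.1 this).2⟩
    · rw [Fintype.mem_piFinset]
      intro j
      exact Finset.mem_filter.2 ⟨Finset.mem_univ _, hi j⟩
  calc (FA_B A l).card ≤ _ := Finset.card_le_card hsub
    _ ≤ ∑ T ∈ Finset.univ.filter fun T : Finset (Fin D) => T ≠ Finset.univ,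
        (Fintype.piFinset fun _ : Fin l => T).card := Finset.card_biUnion_le
    _ ≤ ∑ T ∈ Finset.univ.filter fun T : Finset (Fin D) => T ≠ Finset.univ, (D - 1) ^ l := by
        refine Finset.sum_le_sum fun T hT => ?_
        rw [Fintype.card_piFinset, Finset.prod_const, Finset.card_univ, Fintype.card_fin]
        refine Nat.pow_le_pow_left ?_ l
        have h1 : T.card < D := by
          have := Finset.card_lt_card (Finset.ssubset_univ_iff.2 (Finset.mem_filter.1 hT).2)
          simpa using this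
        omega
    _ ≤ 2 ^ D * (D - 1) ^ l := by
        rw [Finset.sum_const, smul_eq_mul]
        refine Nat.mul_le_mul_right _ ?_
        calc _ ≤ (Finset.univ : Finset (Finset (Fin D))).card := Finset.card_filter_le _ _
          _ = 2 ^ D := by simp

theorem FA_exists_len (D : ℕ) (hD : 2 ≤ D) :
    ∃ l : ℕ, 1 ≤ l ∧ 2 * (2 ^ D * (D - 1) ^ l) ≤ D ^ l := by
  have hD0 : (0 : ℝ) < D := by positivity
  have hlt : ((D : ℝ) - 1) / D < 1 := by
    rw [div_lt_one hD0]
    linarith
  have hnn : 0 ≤ ((D : ℝ) - 1) / D := by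
    have : (2 : ℝ) ≤ D := by exact_mod_cast hD
    exact div_nonneg (by linarith) hD0.le
  obtain ⟨l, hl⟩ := exists_pow_lt_of_lt_one (show (0 : ℝ) < 1 / (2 * 2 ^ D) by positivity) hlt
  refine ⟨l + 1, by omega, ?_⟩
  have h1 : (((D : ℝ) - 1) / D) ^ (l + 1) < 1 / (2 * 2 ^ D) :=
    (pow_le_pow_of_le_one hnn hlt.le (Nat.le_succ l)).trans_lt hl
  rw [div_pow, div_lt_div_iff₀ (by positivity) (by positivity), one_mul] at h1
  have h2 : ((D - 1 : ℕ) : ℝ) = (D : ℝ) - 1 := by
    rw [Nat.cast_sub (by omega)]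
    norm_num
  have h3 : (2 * (2 ^ D * ((D - 1 : ℕ) : ℝ) ^ (l + 1)) : ℝ) ≤ (D : ℝ) ^ (l + 1) := by
    rw [h2]
    nlinarith [h1]
  exact_mod_cast h3

/-- The word that stands at position `m`. -/
def FA_win {D n l : ℕ} (x : Word D n) (m : ℕ) (h : m + l ≤ n) : Word D l :=
  fun j => x ⟨m + j, by omega⟩

theorem FA_occurs_iff {D n l : ℕ} (x : Word D n) (m : ℕ) (h : m + l ≤ n) (w : Word D l) :
    Occurs x m w ↔ w = FA_win x m h := by
  constructor
  · rintro ⟨_, hw⟩
    funext j
    exact (hw j).symm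
  · rintro rfl
    exact ⟨h, fun j => rfl⟩

open Classical in
theorem FA_count {D n l : ℕ} (A : ℕ → Set (Fin D)) (hl : 1 ≤ l) (hln : l ≤ n) (x : Word D n)
    (hx : x ∈ FA_S A n) :
    ((n + 1 - l : ℕ) : ℝ) - (l : ℝ) ≤
      ∑ m ∈ Finset.range (n + 1 - l), ∑ w ∈ FA_B A l, if Occurs x m w then (1 : ℝ) else 0 := by
  obtain ⟨i, r, hr, h1, h2⟩ := hx
  have hterm : ∀ m ∈ Finset.range (n + 1 - l), ¬ (n < m + l + r ∧ m + r < n) →
      ∑ w ∈ FA_B A l, (if Occurs x m w then (1 : ℝ) else 0) = 1 := by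
    intro m hm hgood
    have hml : m + l ≤ n := by
      have := Finset.mem_range.1 hm
      omega
    rw [Finset.sum_eq_single (FA_win x m hml)]
    · rw [if_pos ((FA_occurs_iff x m hml _).2 rfl)]
    · intro w _ hw
      rw [if_neg]
      intro h
      exact hw ((FA_occurs_iff x m hml w).1 h)
    · intro hB
      exfalso
      apply hB
      refine Finset.mem_filter.2 ⟨Finset.mem_univ _, ?_⟩
      by_cases hc : m + r < n
      · have hc' : m + l + r ≤ n := by
          by_contra hcc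
          exact hgood ⟨by omega, hc⟩
        refine ⟨i, fun j => h1 _ ?_⟩
        have := j.2
        simp only
        omega
      · refine ⟨i + 1, fun j => h2 _ ?_⟩
        simp only
        omega
  have hge : ∀ m ∈ Finset.range (n + 1 - l),
      (1 : ℝ) - (if n < m + l + r ∧ m + r < n then 1 else 0) ≤
        ∑ w ∈ FA_B A l, (if Occurs x m w then (1 : ℝ) else 0) := by
    intro m hm
    by_cases hb : n < m + l + r ∧ m + r < n
    · rw [if_pos hb, sub_self]
      exact Finset.sum_nonneg fun w _ => by split_ifs <;> norm_num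
    · rw [if_neg hb, hterm m hm hb, sub_zero]
  refine le_trans ?_ (Finset.sum_le_sum hge)
  rw [Finset.sum_sub_distrib, Finset.sum_const, Finset.card_range, nsmul_eq_mul, mul_one,
    Finset.sum_ite, Finset.sum_const_zero, add_zero, Finset.sum_const, nsmul_eq_mul, mul_one]
  have hcard : ((Finset.range (n + 1 - l)).filter fun m => n < m + l + r ∧ m + r < n).card ≤ l := by
    calc _ ≤ (Finset.Ico (n - r - (l - 1)) (n - r)).card := by
          refine Finset.card_le_card fun m hm => ?_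
          have := (Finset.mem_filter.1 hm).2
          rw [Finset.mem_Ico]
          omega
      _ ≤ l := by
          rw [Nat.card_Ico]
          omega
  have : (((Finset.range (n + 1 - l)).filter fun m => n < m + l + r ∧ m + r < n).card : ℝ) ≤ l := by
    exact_mod_cast hcard
  linarith

theorem not_mixing_fails (D : ℕ) (hD : 2 ≤ D) (W : Matrix (Fin D) (Fin D) ℂ)
    (hW : W ∈ Matrix.unitaryGroup (Fin D) ℂ) (h : ¬ IsMixing W) :
    ∃ l : ℕ, ∃ ε : ℝ, 0 < ε ∧ ∃ K : ℕ, ∀ k ≥ K, ∀ θ : Word D (k + 1) → ℝ,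
      ∃ ψ : Word D (k + 1) → ℂ, IsUnitEigenvector W θ ψ ∧
        ∃ (i : ℕ) (w : Word D l), i + l ≤ k + 1 ∧
          ε ≤ |cylWeight ψ i w - (1 / (D : ℝ)) ^ l| := by
  classical
  obtain ⟨a, ha⟩ := FA_exists hW h
  set A : ℕ → Set (Fin D) := fun q => (FA_N W)^[q] {a} with hAdef
  have hA : ∀ i, A (i + 1) = FA_N W (A i) := fun i => Function.iterate_succ_apply' _ _ _
  obtain ⟨l, hl, hlB⟩ := FA_exists_len D hD
  have hD0 : (0 : ℝ) < D := by positivity
  refine ⟨l, 1 / (4 * (D : ℝ) ^ l), by positivity, 4 * l, fun k hk θ => ?_⟩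
  obtain ⟨ψ, hψ, hsupp⟩ := FA_eigen (k := k) W A hA ⟨a, rfl⟩ θ
  refine ⟨ψ, hψ, ?_⟩
  by_contra hcon
  push Not at hcon
  set M : ℕ := k + 1 + 1 - l with hM
  have hMl : 3 * l ≤ M := by omega
  have hcard : (2 : ℝ) * (FA_B A l).card ≤ (D : ℝ) ^ l := by
    have := FA_card_B A ha l
    have h2 : 2 * (FA_B A l).card ≤ D ^ l := by omega
    exact_mod_cast h2
  -- upper bound
  have hup : ∑ m ∈ Finset.range M, ∑ w ∈ FA_B A l, cylWeight ψ m w ≤ (M : ℝ) * (5 / 8) := by
    have h1 : ∀ m ∈ Finset.range M, ∑ w ∈ FA_B A l, cylWeight ψ m w ≤ 5 / 8 := by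
      intro m hm
      have hml : m + l ≤ k + 1 := by
        have := Finset.mem_range.1 hm
        omega
      have h2 : ∀ w ∈ FA_B A l, cylWeight ψ m w ≤ 5 / 4 * (1 / (D : ℝ) ^ l) := by
        intro w _
        have := (abs_lt.1 (hcon m w hml)).2
        rw [one_div_pow] at this
        have h3 : 1 / (4 * (D : ℝ) ^ l) = 1 / 4 * (1 / (D : ℝ) ^ l) := by
          field_simp
        rw [h3] at this
        linarith
      refine (Finset.sum_le_sum h2).trans ?_
      rw [Finset.sum_const, nsmul_eq_mul]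
      have h4 : ((FA_B A l).card : ℝ) * (1 / (D : ℝ) ^ l) ≤ 1 / 2 := by
        rw [mul_one_div, div_le_iff₀ (by positivity)]
        linarith
      linarith
    refine (Finset.sum_le_sum h1).trans ?_
    rw [Finset.sum_const, nsmul_eq_mul, Finset.card_range]
  -- lower bound
  have hlow : (M : ℝ) - l ≤ ∑ m ∈ Finset.range M, ∑ w ∈ FA_B A l, cylWeight ψ m w := by
    have h1 : ∑ m ∈ Finset.range M, ∑ w ∈ FA_B A l, cylWeight ψ m w =
        ∑ x, ‖ψ x‖ ^ 2 * ∑ m ∈ Finset.range M, ∑ w ∈ FA_B A l,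
          (if Occurs x m w then (1 : ℝ) else 0) := by
      have h2 : ∀ (m : ℕ) (w : Word D l), cylWeight ψ m w =
          ∑ x, ‖ψ x‖ ^ 2 * (if Occurs x m w then (1 : ℝ) else 0) := by
        intro m w
        unfold cylWeight
        rw [Finset.sum_filter]
        refine Finset.sum_congr rfl fun x _ => ?_
        split_ifs <;> simp
      calc ∑ m ∈ Finset.range M, ∑ w ∈ FA_B A l, cylWeight ψ m w
          = ∑ m ∈ Finset.range M, ∑ w ∈ FA_B A l,
              ∑ x, ‖ψ x‖ ^ 2 * (if Occurs x m w then (1 : ℝ) else 0) :=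
            Finset.sum_congr rfl fun m _ => Finset.sum_congr rfl fun w _ => h2 m w
        _ = ∑ m ∈ Finset.range M, ∑ x, ∑ w ∈ FA_B A l,
              ‖ψ x‖ ^ 2 * (if Occurs x m w then (1 : ℝ) else 0) :=
            Finset.sum_congr rfl fun m _ => Finset.sum_comm
        _ = ∑ x, ∑ m ∈ Finset.range M, ∑ w ∈ FA_B A l,
              ‖ψ x‖ ^ 2 * (if Occurs x m w then (1 : ℝ) else 0) := Finset.sum_comm
        _ = _ := Finset.sum_congr rfl fun x _ => by
            rw [Finset.mul_sum]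
            exact Finset.sum_congr rfl fun m _ => by rw [Finset.mul_sum]
    rw [h1]
    calc (M : ℝ) - l = ∑ x, ‖ψ x‖ ^ 2 * ((M : ℝ) - l) := by
          rw [← Finset.sum_mul, hψ.1, one_mul]
      _ ≤ _ := by
          refine Finset.sum_le_sum fun x _ => ?_
          by_cases hx : x ∈ FA_S A (k + 1)
          · exact mul_le_mul_of_nonneg_left (FA_count A hl (by omega) x hx) (by positivity)
          · rw [hsupp x hx]
            simp
  have hMl' : (3 : ℝ) * l ≤ M := by exact_mod_cast hMl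
  have hl' : (1 : ℝ) ≤ l := by exact_mod_cast hl
  linarith

end Pool.Agent.helper72.RQ
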